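import Mathlib

/-!
# Euler characteristics of long exact sequences of abelian groups of finite rank
-/

set_option autoImplicit false

open Finset Cardinal

namespace Pool.Agent.TH90.Zet

/-- The abelian group `A` has finite rank, `dim (A ⊗ ℚ) < ∞`. -/
def FiniteRank (A : Type) [AddCommGroup A] : Prop := Module.rank ℤ A < ℵ₀

/-- The rank of an abelian group, `dim (A ⊗ ℚ)` (and `0` if this is infinite). -/
noncomputable def rk (A : Type) [AddCommGroup A] : ℕ := Module.finrank ℤ A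

/-- The groups `G 0, G 1, …` have finite rank, almost all of them rank `0`, and `χ` is the
alternating sum of their ranks. -/
def Euler (G : ℕ → Type) [∀ i, AddCommGroup (G i)] (χ : ℤ) : Prop :=
  (∀ i, FiniteRank (G i)) ∧ ∃ N, (∀ i ≥ N, rk (G i) = 0) ∧
    χ = ∑ i ∈ range N, (-1) ^ i * (rk (G i) : ℤ)

section Basic

variable {A B C : Type} [AddCommGroup A] [AddCommGroup B] [AddCommGroup C]

/-- the rank of the image -/
noncomputable def rho (f : A →+ B) : ℕ := Module.finrank ℤ (LinearMap.range f.toIntLinearMap)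

theorem rank_range_lt (f : A →+ B) (hA : FiniteRank A) :
    Module.rank ℤ (LinearMap.range f.toIntLinearMap) < ℵ₀ :=
  lt_of_le_of_lt (rank_range_le _) hA

theorem rank_range_lt' (f : A →+ B) (hB : FiniteRank B) :
    Module.rank ℤ (LinearMap.range f.toIntLinearMap) < ℵ₀ :=
  lt_of_le_of_lt (Submodule.rank_le _) hB

theorem ker_eq (f : A →+ B) (g : B →+ C) (h : Function.Exact f g) :
    LinearMap.ker g.toIntLinearMap = LinearMap.range f.toIntLinearMap := by
  ext x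
  exact h x

theorem finiteRank_mid (f : A →+ B) (g : B →+ C) (h : Function.Exact f g) (hA : FiniteRank A)
    (hC : FiniteRank C) : FiniteRank B := by
  unfold FiniteRank
  rw [← LinearMap.rank_range_add_rank_ker g.toIntLinearMap, ker_eq f g h]
  exact add_lt_aleph0 (rank_range_lt' g hC) (rank_range_lt f hA)

theorem rk_mid (f : A →+ B) (g : B →+ C) (h : Function.Exact f g) (hB : FiniteRank B) :
    rk B = rho f + rho g := by
  unfold rk rho Module.finrank
  rw [← LinearMap.rank_range_add_rank_ker g.toIntLinearMap, ker_eq f g h, add_comm,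
    Cardinal.toNat_add (rank_range_lt' f hB) (rank_range_lt g hB)]

theorem rk_surj (g : B →+ C) (h : Function.Surjective g) : rk C = rho g := by
  unfold rk rho
  have : LinearMap.range g.toIntLinearMap = ⊤ := LinearMap.range_eq_top.mpr h
  rw [this]
  exact (finrank_top ℤ C).symm

theorem rho_zero (f : A →+ B) (hA : FiniteRank A) (h : rk A = 0) : rho f = 0 := by
  unfold rk at h
  unfold rho
  have h1 : Module.rank ℤ A = 0 := by
    rw [← Cardinal.cast_toNat_of_lt_aleph0 hA]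
    unfold Module.finrank at h
    rw [h]
    simp
  have h2 : Module.rank ℤ (LinearMap.range f.toIntLinearMap) ≤ 0 := by
    rw [← h1]
    exact rank_range_le _
  unfold Module.finrank
  rw [le_antisymm h2 (zero_le)]
  simp

theorem finiteRank_iso (e : A ≃+ B) (hA : FiniteRank A) : FiniteRank B := by
  unfold FiniteRank at *
  rw [← LinearEquiv.rank_eq e.toIntLinearEquiv]
  exact hA

theorem rk_iso (e : A ≃+ B) : rk A = rk B := LinearEquiv.finrank_eq e.toIntLinearEquiv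

end Basic

variable {Z X U : ℕ → Type} [∀ i, AddCommGroup (Z i)] [∀ i, AddCommGroup (X i)]
  [∀ i, AddCommGroup (U i)]

theorem Euler.of_iso {G H : ℕ → Type} [∀ i, AddCommGroup (G i)] [∀ i, AddCommGroup (H i)]
    (e : ∀ i, Nonempty (G i ≃+ H i)) {χ : ℤ} (h : Euler G χ) : Euler H χ := by
  obtain ⟨h1, N, h2, h3⟩ := h
  refine ⟨fun i => ?_, N, fun i hi => ?_, ?_⟩
  · obtain ⟨e⟩ := e i
    exact finiteRank_iso e (h1 i)
  · obtain ⟨e⟩ := e i
    rw [← rk_iso e, h2 i hi]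
  · rw [h3]
    refine Finset.sum_congr rfl fun i _ => ?_
    obtain ⟨e⟩ := e i
    rw [rk_iso e]

theorem Euler.of_subsingleton {G : ℕ → Type} [∀ i, AddCommGroup (G i)]
    (h : ∀ i, Subsingleton (G i)) : Euler G 0 := by
  have h0 : ∀ i, Module.rank ℤ (G i) = 0 := fun i => by
    have := h i
    exact rank_subsingleton' ℤ (G i)
  refine ⟨fun i => ?_, 0, fun i _ => ?_, ?_⟩
  · unfold FiniteRank
    rw [h0]
    exact aleph0_pos
  · unfold rk Module.finrank
    rw [h0]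
    simp
  · simp

/-- enlarging the range -/
theorem sum_ge {G : ℕ → Type} [∀ i, AddCommGroup (G i)] {N M : ℕ} (hNM : N ≤ M)
    (h : ∀ i ≥ N, rk (G i) = 0) :
    ∑ i ∈ range N, (-1 : ℤ) ^ i * (rk (G i) : ℤ) = ∑ i ∈ range M, (-1 : ℤ) ^ i * (rk (G i) : ℤ) := by
  refine Finset.sum_subset (range_subset_range.mpr hNM) fun i _ hi => ?_
  rw [mem_range, not_lt] at hi
  rw [h i hi]
  simp

/-- A long exact sequence of homological type. -/
structure LES (Z X U : ℕ → Type) [∀ i, AddCommGroup (Z i)] [∀ i, AddCommGroup (X i)]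
    [∀ i, AddCommGroup (U i)] where
  p : ∀ i, Z i →+ X i
  r : ∀ i, X i →+ U i
  b : ∀ i, U (i + 1) →+ Z i
  e1 : ∀ i, Function.Exact (b i) (p i)
  e2 : ∀ i, Function.Exact (p i) (r i)
  e3 : ∀ i, Function.Exact (r (i + 1)) (b i)
  surj : Function.Surjective (r 0)

theorem LES.sum (S : LES Z X U) (hZ : ∀ i, FiniteRank (Z i)) (hX : ∀ i, FiniteRank (X i))
    (hU : ∀ i, FiniteRank (U i)) {N : ℕ} (hUN : ∀ i ≥ N, rk (U i) = 0) :
    ∑ i ∈ range (N + 1), (-1 : ℤ) ^ i * (rk (X i) : ℤ) =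
      ∑ i ∈ range (N + 1), (-1 : ℤ) ^ i * (rk (Z i) : ℤ) +
        ∑ i ∈ range (N + 1), (-1 : ℤ) ^ i * (rk (U i) : ℤ) := by
  have h1 : ∀ i, (rk (Z i) : ℤ) = rho (S.b i) + rho (S.p i) := fun i => by
    rw [rk_mid _ _ (S.e1 i) (hZ i)]; push_cast; ring
  have h2 : ∀ i, (rk (X i) : ℤ) = rho (S.p i) + rho (S.r i) := fun i => by
    rw [rk_mid _ _ (S.e2 i) (hX i)]; push_cast; ring
  have h3 : ∀ i, (rk (U (i + 1)) : ℤ) = rho (S.r (i + 1)) + rho (S.b i) := fun i => by
    rw [rk_mid _ _ (S.e3 i) (hU (i + 1))]; push_cast; ring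
  have h4 : (rk (U 0) : ℤ) = rho (S.r 0) := by rw [rk_surj _ S.surj]
  have h5 : rho (S.b N) = 0 := rho_zero _ (hU _) (hUN _ (by omega))
  have eX : ∑ i ∈ range (N + 1), (-1 : ℤ) ^ i * (rk (X i) : ℤ) =
      ∑ i ∈ range (N + 1), (-1 : ℤ) ^ i * (rho (S.p i) : ℤ) +
        ∑ i ∈ range (N + 1), (-1 : ℤ) ^ i * (rho (S.r i) : ℤ) := by
    rw [← Finset.sum_add_distrib]
    exact Finset.sum_congr rfl fun i _ => by rw [h2]; ring
  have eZ : ∑ i ∈ range (N + 1), (-1 : ℤ) ^ i * (rk (Z i) : ℤ) =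
      ∑ i ∈ range N, (-1 : ℤ) ^ i * (rho (S.b i) : ℤ) +
        ∑ i ∈ range (N + 1), (-1 : ℤ) ^ i * (rho (S.p i) : ℤ) := by
    have : ∑ i ∈ range (N + 1), (-1 : ℤ) ^ i * (rk (Z i) : ℤ) =
        ∑ i ∈ range (N + 1), (-1 : ℤ) ^ i * (rho (S.b i) : ℤ) +
          ∑ i ∈ range (N + 1), (-1 : ℤ) ^ i * (rho (S.p i) : ℤ) := by
      rw [← Finset.sum_add_distrib]
      exact Finset.sum_congr rfl fun i _ => by rw [h1]; ring
    rw [this, Finset.sum_range_succ (fun i => (-1 : ℤ) ^ i * (rho (S.b i) : ℤ)), h5]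
    simp
  have eU : ∑ i ∈ range (N + 1), (-1 : ℤ) ^ i * (rk (U i) : ℤ) =
      ∑ i ∈ range (N + 1), (-1 : ℤ) ^ i * (rho (S.r i) : ℤ) -
        ∑ i ∈ range N, (-1 : ℤ) ^ i * (rho (S.b i) : ℤ) := by
    rw [Finset.sum_range_succ', Finset.sum_range_succ' (fun i => (-1 : ℤ) ^ i * (rho (S.r i) : ℤ)),
      h4]
    have : ∑ i ∈ range N, (-1 : ℤ) ^ (i + 1) * (rk (U (i + 1)) : ℤ) =
        ∑ i ∈ range N, (-1 : ℤ) ^ (i + 1) * (rho (S.r (i + 1)) : ℤ) -
          ∑ i ∈ range N, (-1 : ℤ) ^ i * (rho (S.b i) : ℤ) := by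
      rw [← Finset.sum_sub_distrib]
      exact Finset.sum_congr rfl fun i _ => by rw [h3, pow_succ]; ring
    rw [this]
    ring
  rw [eX, eZ, eU]
  ring

theorem LES.total (S : LES Z X U) {a c : ℤ} (hZ : Euler Z a) (hU : Euler U c) :
    Euler X (a + c) := by
  obtain ⟨hZ, N, hZN, rfl⟩ := hZ
  obtain ⟨hU, M, hUM, rfl⟩ := hU
  have hX : ∀ i, FiniteRank (X i) := fun i => finiteRank_mid _ _ (S.e2 i) (hZ i) (hU i)
  have hXN : ∀ i ≥ max N M + 1, rk (X i) = 0 := by
    intro i hi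
    have h1 := hZN i (by omega)
    have h2 := hUM i (by omega)
    have h3 := hUM (i + 1) (by omega)
    rw [rk_mid _ _ (S.e2 i) (hX i), rho_zero _ (hZ i) h1]
    have h4 : rk (U i) = 0 := h2
    have h5 : rho (S.r i) ≤ rk (U i) := by
      unfold rho rk Module.finrank
      exact Cardinal.toNat_le_toNat (Submodule.rank_le _) (hU i)
    omega
  refine ⟨hX, max N M + 1, hXN, ?_⟩
  rw [S.sum hZ hX hU (N := max N M) (fun i hi => hUM i (by omega)),
    sum_ge (show N ≤ max N M + 1 by omega) hZN, sum_ge (show M ≤ max N M + 1 by omega) hUM]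

theorem LES.closed (S : LES Z X U) {x c : ℤ} (hX : Euler X x) (hU : Euler U c) :
    Euler Z (x - c) := by
  obtain ⟨hX, N, hXN, rfl⟩ := hX
  obtain ⟨hU, M, hUM, rfl⟩ := hU
  have hZ : ∀ i, FiniteRank (Z i) := fun i => finiteRank_mid _ _ (S.e1 i) (hU (i + 1)) (hX i)
  have hZN : ∀ i ≥ max N M + 1, rk (Z i) = 0 := by
    intro i hi
    have h1 := hXN i (by omega)
    have h3 := hUM (i + 1) (by omega)
    rw [rk_mid _ _ (S.e1 i) (hZ i), rho_zero _ (hU (i + 1)) h3]
    have h5 : rho (S.p i) ≤ rk (X i) := by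
      unfold rho rk Module.finrank
      exact Cardinal.toNat_le_toNat (Submodule.rank_le _) (hX i)
    omega
  refine ⟨hZ, max N M + 1, hZN, ?_⟩
  have h := S.sum hZ hX hU (N := max N M) (fun i hi => hUM i (by omega))
  rw [sum_ge (show N ≤ max N M + 1 by omega) hXN, sum_ge (show M ≤ max N M + 1 by omega) hUM, h]
  ring

end Pool.Agent.TH90.Zet
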