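import Pool.Agent.TH26.Zeta.Final

/-!
# Uniqueness of continuations of zeta functions
-/

set_option autoImplicit false

namespace Pool.Agent.TH90.Zet

open AlgebraicGeometry CategoryTheory Pool.Agent.TH26.Zeta Topology

/-- Two continuations of the zeta function of `X` have the same orders. -/
theorem order_unique {X : Scheme.{0}} {F G : ℂ → ℂ} (hF : IsCont X F) (hG : IsCont X G) (s : ℂ) :
    meromorphicOrderAt F s = meromorphicOrderAt G s := by
  obtain ⟨hF, σ₁, h₁⟩ := hF
  obtain ⟨hG, σ₂, h₂⟩ := hG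
  have hFG : MeromorphicOn (F - G) Set.univ := hF.sub hG
  let M : ℝ := max σ₁ σ₂
  have hzero : ∀ w : ℂ, M < w.re → (F - G) w = 0 := by
    intro w hw
    rw [Pi.sub_apply, h₁ w (lt_of_le_of_lt (le_max_left _ _) hw),
      h₂ w (lt_of_le_of_lt (le_max_right _ _) hw), sub_self]
  have htop : ∀ w : ℂ, meromorphicOrderAt (F - G) w = ⊤ := by
    by_contra hcon
    push Not at hcon
    obtain ⟨w, hw⟩ := hcon
    have h1 : meromorphicOrderAt (F - G) ((M + 1 : ℝ) : ℂ) ≠ ⊤ :=
      hFG.meromorphicOrderAt_ne_top_of_isPreconnected (x := w) isPreconnected_univ trivial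
        trivial hw
    apply h1
    rw [meromorphicOrderAt_eq_top_iff]
    have h2 : ∀ᶠ z : ℂ in 𝓝 ((M + 1 : ℝ) : ℂ), M < z.re := by
      apply (isOpen_lt continuous_const Complex.continuous_re).mem_nhds
      simp
    filter_upwards [h2.filter_mono nhdsWithin_le_nhds] with z hz'
    exact hzero z hz'
  have hEq : F =ᶠ[𝓝[≠] s] G := by
    have := meromorphicOrderAt_eq_top_iff.mp (htop s)
    filter_upwards [this] with z hz'
    exact sub_eq_zero.mp hz'
  exact meromorphicOrderAt_congr hEq

end Pool.Agent.TH90.Zet
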