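import Pool.Agent.TH90.Zet.Pts

/-!
# Continuations of zeta functions: closed and open subschemes, affine lines
-/

set_option autoImplicit false

namespace Pool.Agent.TH90.Zet

open AlgebraicGeometry CategoryTheory Pool.Agent.TH26.Zeta Pool.Agent.TH90.Cub

theorem zeta_add {Z X U : Scheme.{0}} (f : X ⟶ Spec (CommRingCat.of ℤ))
    (h1 : LocallyOfFiniteType f) (h2 : QuasiCompact f) (i : Z ⟶ X) (j : U ⟶ X)
    (hi : IsClosedImmersion i) (hj : IsOpenImmersion j) (h : Set.range i = (Set.range j)ᶜ) :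
    ∃ σ : ℝ, ∀ s : ℂ, σ < s.re → zetaProd X s = zetaProd Z s * zetaProd U s ∧
      zetaProd U s ≠ 0 := by
  have hN : IsLocallyNoetherian X := LocallyOfFiniteType.isLocallyNoetherian f
  obtain ⟨n, hn, hX⟩ := zeta_eq f h1 h2
  have h3 : LocallyOfFiniteType (i ≫ f) := inferInstance
  have h4 : QuasiCompact (i ≫ f) := inferInstance
  have h5 : LocallyOfFiniteType (j ≫ f) := inferInstance
  have hNX : CompactSpace X := QuasiCompact.compactSpace_of_compactSpace f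
  have hNN : IsNoetherian X := ⟨⟩
  have h6 : QuasiCompact (j ≫ f) := inferInstance
  obtain ⟨n₁, hn₁, hZ⟩ := zeta_eq (i ≫ f) h3 h4
  obtain ⟨n₂, hn₂, hU⟩ := zeta_eq (j ≫ f) h5 h6
  refine ⟨max (n + 1) (max (n₁ + 1) (n₂ + 1)), fun s hs => ?_⟩
  have e0 : (n : ℝ) + 1 < s.re := lt_of_le_of_lt (le_max_left _ _) hs
  have e1 : (n₁ : ℝ) + 1 < s.re :=
    lt_of_le_of_lt ((le_max_left _ _).trans (le_max_right _ _)) hs
  have e2 : (n₂ : ℝ) + 1 < s.re :=
    lt_of_le_of_lt ((le_max_right _ _).trans (le_max_right _ _)) hs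
  have hadd : cnt X = fun a => cnt Z a + cnt U a :=
    funext fun a => cnt_add f h1 h2 i j hi hj h a
  rw [hX s e0, hZ s e1, hU s e2, hadd, ← Complex.exp_add]
  refine ⟨?_, Complex.exp_ne_zero _⟩
  congr 1
  apply L_sum (n := n) _ _ e0
  · intro a
    have := hn a
    rw [hadd] at this
    exact (Nat.le_add_right _ _).trans this
  · intro a
    have := hn a
    rw [hadd] at this
    exact (Nat.le_add_left _ _).trans this

theorem cont_total {Z X U : Scheme.{0}} (f : X ⟶ Spec (CommRingCat.of ℤ))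
    (h1 : LocallyOfFiniteType f) (h2 : QuasiCompact f) (i : Z ⟶ X) (j : U ⟶ X)
    (hi : IsClosedImmersion i) (hj : IsOpenImmersion j) (h : Set.range i = (Set.range j)ᶜ)
    {F G : ℂ → ℂ} (hF : IsCont Z F) (hG : IsCont U G) : IsCont X (F * G) := by
  obtain ⟨σ, hσ⟩ := zeta_add f h1 h2 i j hi hj h
  obtain ⟨hF, σ₁, h₁⟩ := hF
  obtain ⟨hG, σ₂, h₂⟩ := hG
  refine ⟨hF.mul hG, max σ (max σ₁ σ₂), fun s hs => ?_⟩
  have e0 : σ < s.re := lt_of_le_of_lt (le_max_left _ _) hs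
  have e1 : σ₁ < s.re := lt_of_le_of_lt ((le_max_left _ _).trans (le_max_right _ _)) hs
  have e2 : σ₂ < s.re := lt_of_le_of_lt ((le_max_right _ _).trans (le_max_right _ _)) hs
  rw [(hσ s e0).1, ← h₁ s e1, ← h₂ s e2]
  rfl

theorem cont_closed {Z X U : Scheme.{0}} (f : X ⟶ Spec (CommRingCat.of ℤ))
    (h1 : LocallyOfFiniteType f) (h2 : QuasiCompact f) (i : Z ⟶ X) (j : U ⟶ X)
    (hi : IsClosedImmersion i) (hj : IsOpenImmersion j) (h : Set.range i = (Set.range j)ᶜ)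
    {F G : ℂ → ℂ} (hF : IsCont X F) (hG : IsCont U G) : IsCont Z (F * G⁻¹) := by
  obtain ⟨σ, hσ⟩ := zeta_add f h1 h2 i j hi hj h
  obtain ⟨hF, σ₁, h₁⟩ := hF
  obtain ⟨hG, σ₂, h₂⟩ := hG
  refine ⟨hF.mul hG.inv, max σ (max σ₁ σ₂), fun s hs => ?_⟩
  have e0 : σ < s.re := lt_of_le_of_lt (le_max_left _ _) hs
  have e1 : σ₁ < s.re := lt_of_le_of_lt ((le_max_left _ _).trans (le_max_right _ _)) hs
  have e2 : σ₂ < s.re := lt_of_le_of_lt ((le_max_right _ _).trans (le_max_right _ _)) hs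
  change F s * (G s)⁻¹ = zetaProd Z s
  rw [h₁ s e1, h₂ s e2, (hσ s e0).1, mul_assoc, mul_inv_cancel₀ (hσ s e0).2, mul_one]

theorem cont_empty {X : Scheme.{0}} (hX : IsEmpty X) : IsCont X (fun _ => 1) := by
  refine ⟨fun s _ => MeromorphicAt.const 1 s, 0, fun s _ => ?_⟩
  have : IsEmpty {x : X // IsClosed ({x} : Set X)} := ⟨fun x => hX.elim x.1⟩
  unfold zetaProd
  rw [tprod_empty]

theorem cont_iso {X Y : Scheme.{0}} (e : X ≅ Y) (g : Y ⟶ Spec (CommRingCat.of ℤ))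
    (h1 : LocallyOfFiniteType g) (h2 : QuasiCompact g) {F : ℂ → ℂ} (hF : IsCont X F) :
    IsCont Y F := by
  have h3 : LocallyOfFiniteType (e.hom ≫ g) := inferInstance
  have h4 : QuasiCompact (e.hom ≫ g) := inferInstance
  obtain ⟨n, -, hX⟩ := zeta_eq (e.hom ≫ g) h3 h4
  obtain ⟨m, -, hY⟩ := zeta_eq g h1 h2
  obtain ⟨hF, σ₁, h₁⟩ := hF
  refine ⟨hF, max σ₁ (max (n + 1) (m + 1)), fun s hs => ?_⟩
  have e0 : σ₁ < s.re := lt_of_le_of_lt (le_max_left _ _) hs
  have e1 : (n : ℝ) + 1 < s.re :=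
    lt_of_le_of_lt ((le_max_left _ _).trans (le_max_right _ _)) hs
  have e2 : (m : ℝ) + 1 < s.re :=
    lt_of_le_of_lt ((le_max_right _ _).trans (le_max_right _ _)) hs
  rw [h₁ s e0, hX s e1, hY s e2, show cnt X = cnt Y from funext fun a => cnt_iso e a]

theorem zeta_poly (A : Type) [CommRing A] [Algebra ℤ A] (hA : Algebra.FiniteType ℤ A) :
    ∃ σ : ℝ, ∀ s : ℂ, σ < s.re → zetaProd (Spec (CommRingCat.of (Polynomial A))) s =
      zetaProd (Spec (CommRingCat.of A)) (s - 1) := by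
  have hp : Algebra.FiniteType ℤ (Polynomial A) := hA.trans inferInstance
  have f1 := ft_str (sep := False) A hA
  have f2 := ft_str (sep := False) (Polynomial A) hp
  obtain ⟨n, -, hX⟩ := zeta_eq (str ℤ A) f1.lft f1.qc
  obtain ⟨m, -, hY⟩ := zeta_eq (str ℤ (Polynomial A)) f2.lft f2.qc
  refine ⟨max (n + 2) (m + 1), fun s hs => ?_⟩
  have e1 : (n : ℝ) + 1 < (s - 1).re := by
    have := lt_of_le_of_lt (le_max_left _ _) hs
    simp only [Complex.sub_re, Complex.one_re]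
    linarith
  have e2 : (m : ℝ) + 1 < s.re := lt_of_le_of_lt (le_max_right _ _) hs
  rw [hX _ e1, hY s e2, ← L_mul]
  congr 2
  exact funext fun a => cnt_poly A a

theorem cont_poly (A : Type) [CommRing A] [Algebra ℤ A] (hA : Algebra.FiniteType ℤ A)
    {F : ℂ → ℂ} (hF : IsCont (Spec (CommRingCat.of A)) F) :
    IsCont (Spec (CommRingCat.of (Polynomial A))) (fun s => F (s + (-1))) := by
  obtain ⟨σ, hσ⟩ := zeta_poly A hA
  obtain ⟨hF, σ₁, h₁⟩ := hF
  refine ⟨merOn_comp hF _, max σ (σ₁ + 1), fun s hs => ?_⟩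
  have e1 : σ < s.re := lt_of_le_of_lt (le_max_left _ _) hs
  have e2 : σ₁ < (s + (-1)).re := by
    have := lt_of_le_of_lt (le_max_right _ _) hs
    simp only [Complex.add_re, Complex.neg_re, Complex.one_re]
    linarith
  change F (s + (-1)) = _
  rw [hσ s e1, h₁ _ e2, sub_eq_add_neg]

theorem cont_of_poly (A : Type) [CommRing A] [Algebra ℤ A] (hA : Algebra.FiniteType ℤ A)
    {F : ℂ → ℂ} (hF : IsCont (Spec (CommRingCat.of (Polynomial A))) F) :
    IsCont (Spec (CommRingCat.of A)) (fun s => F (s + 1)) := by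
  obtain ⟨σ, hσ⟩ := zeta_poly A hA
  obtain ⟨hF, σ₁, h₁⟩ := hF
  refine ⟨merOn_comp hF _, max σ σ₁, fun s hs => ?_⟩
  have e1 : σ < (s + 1).re := by
    have := lt_of_le_of_lt (le_max_left _ _) hs
    simp only [Complex.add_re, Complex.one_re]
    linarith
  have e2 : σ₁ < (s + 1).re := by
    have := lt_of_le_of_lt (le_max_right _ _) hs
    simp only [Complex.add_re, Complex.one_re]
    linarith
  change F (s + 1) = _
  rw [h₁ _ e2, hσ _ e1, add_sub_cancel_right]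

end Pool.Agent.TH90.Zet
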