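import Pool.Agent.TH26.Zeta.Final
import Pool.Agent.TH90.Cub.Util

/-!
# Points in finite fields: closed and open subschemes, affine lines
-/

set_option autoImplicit false

namespace Pool.Agent.TH90.Zet

open AlgebraicGeometry CategoryTheory Pool.Agent.TH26.Zeta Pool.Agent.TH90.Cub

theorem isIso_residue {Z X : Scheme.{0}} (i : Z ⟶ X) [IsClosedImmersion i] (z : Z) :
    IsIso (i.residueFieldMap z) := by
  rw [ConcreteCategory.isIso_iff_bijective]
  refine ⟨?_, ?_⟩
  · exact RingHom.injective (i.residueFieldMap z).hom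
  · intro y
    obtain ⟨y', rfl⟩ := IsLocalRing.residue_surjective y
    obtain ⟨x', rfl⟩ := i.stalkMap_surjective z y'
    exact ⟨IsLocalRing.residue _ x', rfl⟩

theorem exists_lift {Y X : Scheme.{0}} (f : Y ⟶ X) (hf : ∀ y, IsIso (f.residueFieldMap y))
    (K : Type) [Field K] (x : X) (φ : X.residueField x ⟶ CommRingCat.of K)
    (hx : x ∈ Set.range f) :
    ∃ g : Spec (CommRingCat.of K) ⟶ Y, g ≫ f = Spec.map φ ≫ X.fromSpecResidueField x := by
  obtain ⟨y, rfl⟩ := hx
  have := hf y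
  refine ⟨Spec.map (inv (f.residueFieldMap y) ≫ φ) ≫ Y.fromSpecResidueField y, ?_⟩
  rw [Category.assoc, ← Scheme.Hom.SpecMap_residueFieldMap_fromSpecResidueField,
    ← Category.assoc, ← Spec.map_comp, IsIso.hom_inv_id_assoc]

theorem pts_sum {Z X U : Scheme.{0}} (i : Z ⟶ X) (j : U ⟶ X) (hi : IsClosedImmersion i)
    (hj : IsOpenImmersion j) (h : Set.range i = (Set.range j)ᶜ) (K : Type) [Field K] :
    Function.Bijective (Sum.elim (fun g : Spec (CommRingCat.of K) ⟶ Z => g ≫ i)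
      (fun g : Spec (CommRingCat.of K) ⟶ U => g ≫ j)) := by
  let pt : Spec (CommRingCat.of K) := IsLocalRing.closedPoint K
  constructor
  · rintro (a | a) (b | b) hab
    · congr 1
      exact (cancel_mono i).mp hab
    · exfalso
      have h1 : (a ≫ i) pt = (b ≫ j) pt := by
        have h2 : a ≫ i = b ≫ j := hab
        rw [h2]
      have h3 : (a ≫ i) pt ∈ Set.range i := ⟨a pt, rfl⟩
      have h4 : (b ≫ j) pt ∈ Set.range j := ⟨b pt, rfl⟩
      rw [h] at h3
      exact h3 (h1 ▸ h4)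
    · exfalso
      have h1 : (a ≫ j) pt = (b ≫ i) pt := by
        have h2 : a ≫ j = b ≫ i := hab
        rw [h2]
      have h3 : (b ≫ i) pt ∈ Set.range i := ⟨b pt, rfl⟩
      have h4 : (a ≫ j) pt ∈ Set.range j := ⟨a pt, rfl⟩
      rw [h] at h3
      exact h3 (h1 ▸ h4)
    · congr 1
      exact (cancel_mono j).mp hab
  · intro g
    obtain ⟨⟨x, φ⟩, rfl⟩ := (Scheme.SpecToEquivOfField K X).symm.surjective g
    by_cases hx : x ∈ Set.range j
    · obtain ⟨g', hg'⟩ := exists_lift j (fun y => inferInstance) K x φ hx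
      exact ⟨Sum.inr g', hg'⟩
    · have hx' : x ∈ Set.range i := by rw [h]; exact hx
      obtain ⟨g', hg'⟩ := exists_lift i (fun y => isIso_residue i y) K x φ hx'
      exact ⟨Sum.inl g', hg'⟩

/-- finiteness and bounds -/
theorem bounds {X : Scheme.{0}} (f : X ⟶ Spec (CommRingCat.of ℤ)) (h1 : LocallyOfFiniteType f)
    (h2 : QuasiCompact f) : ∃ n : ℕ, ∀ a : PP, Finite (Spec (CommRingCat.of (KK a)) ⟶ X) ∧
      cnt X a ≤ a.q ^ n := by
  obtain ⟨B, hB, hB1, hB2⟩ := exists_affine f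
  obtain ⟨n, φ, hφ⟩ := Algebra.FiniteType.iff_quotient_mvPolynomial''.mp hB1
  refine ⟨n, fun a => ?_⟩
  obtain ⟨e⟩ := hB2 a
  let ι : (B →+* KK a) → (Fin n → KK a) := fun ψ i => ψ (φ (MvPolynomial.X i))
  have hι : Function.Injective ι := by
    intro ψ ψ' h
    have h3 : ψ.comp (φ : MvPolynomial (Fin n) ℤ →+* B) =
        ψ'.comp (φ : MvPolynomial (Fin n) ℤ →+* B) := by
      apply MvPolynomial.ringHom_ext
      · intro r
        simp
      · intro i
        exact congrFun h i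
    ext b
    obtain ⟨p, rfl⟩ := hφ b
    exact RingHom.congr_fun h3 p
  have hfin : Finite (B →+* KK a) := Finite.of_injective ι hι
  refine ⟨Finite.of_equiv _ e.symm, ?_⟩
  unfold cnt
  rw [Nat.card_congr e]
  refine (Nat.card_le_card_of_injective ι hι).trans (le_of_eq ?_)
  rw [Nat.card_fun, card_KK, Nat.card_fin]

theorem cnt_add {Z X U : Scheme.{0}} (f : X ⟶ Spec (CommRingCat.of ℤ))
    (h1 : LocallyOfFiniteType f) (h2 : QuasiCompact f) (i : Z ⟶ X) (j : U ⟶ X)
    (hi : IsClosedImmersion i) (hj : IsOpenImmersion j) (h : Set.range i = (Set.range j)ᶜ)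
    (a : PP) : cnt X a = cnt Z a + cnt U a := by
  obtain ⟨n, hn⟩ := bounds f h1 h2
  have hX := (hn a).1
  have hb := pts_sum i j hi hj h (KK a)
  have hs : Finite ((Spec (CommRingCat.of (KK a)) ⟶ Z) ⊕ (Spec (CommRingCat.of (KK a)) ⟶ U)) :=
    Finite.of_injective _ hb.1
  have hZ : Finite (Spec (CommRingCat.of (KK a)) ⟶ Z) :=
    Finite.of_injective (Sum.inl : _ → (Spec (CommRingCat.of (KK a)) ⟶ Z) ⊕
      (Spec (CommRingCat.of (KK a)) ⟶ U)) Sum.inl_injective
  have hU : Finite (Spec (CommRingCat.of (KK a)) ⟶ U) :=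
    Finite.of_injective (Sum.inr : _ → (Spec (CommRingCat.of (KK a)) ⟶ Z) ⊕
      (Spec (CommRingCat.of (KK a)) ⟶ U)) Sum.inr_injective
  unfold cnt
  rw [← Nat.card_congr (Equiv.ofBijective _ hb), Nat.card_sum]

theorem cnt_iso {X Y : Scheme.{0}} (e : X ≅ Y) (a : PP) : cnt X a = cnt Y a :=
  Nat.card_congr
    { toFun := fun g => g ≫ e.hom
      invFun := fun g => g ≫ e.inv
      left_inv := fun g => by simp
      right_inv := fun g => by simp }

/-- homomorphisms from a polynomial ring -/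
noncomputable def polyHom (A K : Type) [CommRing A] [CommRing K] : (Polynomial A →+* K) ≃ (A →+* K) × K where
  toFun φ := (φ.comp Polynomial.C, φ Polynomial.X)
  invFun z := Polynomial.eval₂RingHom z.1 z.2
  left_inv φ := by
    apply Polynomial.ringHom_ext
    · intro a; simp
    · simp
  right_inv z := by
    ext
    · simp
    · simp

theorem cnt_poly (A : Type) [CommRing A] (a : PP) :
    cnt (Spec (CommRingCat.of (Polynomial A))) a = a.q * cnt (Spec (CommRingCat.of A)) a := by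
  unfold cnt
  rw [Nat.card_congr ((specPts (Polynomial A) a).trans (polyHom A (KK a))), Nat.card_prod, card_KK,
    Nat.card_congr (specPts A a), mul_comm]

theorem cnt_empty {X : Scheme.{0}} (hX : IsEmpty X) (a : PP) : cnt X a = 0 := by
  have : IsEmpty (Spec (CommRingCat.of (KK a)) ⟶ X) :=
    ⟨fun g => hX.elim (g (IsLocalRing.closedPoint (KK a)))⟩
  exact Nat.card_of_isEmpty

/-- the zeta function in terms of point counts -/
theorem zeta_eq {X : Scheme.{0}} (f : X ⟶ Spec (CommRingCat.of ℤ)) (h1 : LocallyOfFiniteType f)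
    (h2 : QuasiCompact f) : ∃ n : ℕ, (∀ a, cnt X a ≤ a.q ^ n) ∧ ∀ s : ℂ, (n : ℝ) + 1 < s.re →
      zetaProd X s = Complex.exp (L (cnt X) s) := by
  obtain ⟨n, hn⟩ := bounds f h1 h2
  refine ⟨n, fun a => (hn a).2, fun s hs => ?_⟩
  exact (hasProd_zeta f (fun a => (hn a).1) (fun a => (hn a).2) hs).tprod_eq

theorem L_sum {N₁ N₂ : PP → ℕ} {n : ℕ} (h1 : ∀ a, N₁ a ≤ a.q ^ n) (h2 : ∀ a, N₂ a ≤ a.q ^ n)
    {s : ℂ} (hs : (n : ℝ) + 1 < s.re) : L (fun a => N₁ a + N₂ a) s = L N₁ s + L N₂ s := by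
  unfold L
  rw [← (summable_L h1 hs).tsum_add (summable_L h2 hs)]
  apply tsum_congr
  intro a
  push_cast
  ring

theorem L_mul (N : PP → ℕ) (s : ℂ) : L (fun a => a.q * N a) s = L N (s - 1) := by
  unfold L
  apply tsum_congr
  intro a
  have hq : ((a.q : ℕ) : ℂ) ≠ 0 := by exact_mod_cast a.q_pos.ne'
  have h1 : ((a.q : ℕ) : ℂ) ^ (-(s - 1)) = ((a.q : ℕ) : ℂ) ^ (-s) * ((a.q : ℕ) : ℂ) := by
    have h2 : -(s - 1) = -s + 1 := by ring
    rw [h2, Complex.cpow_add _ _ hq, Complex.cpow_one]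
  rw [h1]
  push_cast
  ring

end Pool.Agent.TH90.Zet
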